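import Mathlib
import Pool.Agent.T6.H57.BA.R2a
import Pool.Agent.T6.H57.BA.R2c

set_option autoImplicit false

/-! Module R3: growth of the number of lattice points in balls, and a Moebius sum with a
logarithm. -/

namespace Pool.Agent.T6.H57.BG

open Finset Module Matrix ArithmeticFunction
open Pool.Agent.H548.WM (ht bx mem_bx Rep le_ht le_ht' ht_le exists_ht)
open Pool.Agent.H548.BL (lat mem_lat)
open Pool.Agent.T6.H52.BA Pool.Agent.T6.H57.BA

/-! ### Growth -/

open Classical in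
/-- The number of lattice points in a ball. -/
noncomputable def nn {N : ℕ} (L : AddSubgroup (Fin N → ℤ)) (Z : ℕ) : ℕ :=
  ((bx N Z).filter fun v => v ∈ L).card

theorem ht_neg {N : ℕ} (v : Fin N → ℤ) : ht (-v) = ht v := by
  apply le_antisymm
  · apply ht_le
    intro i
    rw [Pi.neg_apply, abs_neg]
    exact le_ht' v i
  · apply ht_le
    intro i
    have := le_ht' (-v) i
    rwa [Pi.neg_apply, abs_neg] at this

theorem ht_comb {N : ℕ} {u v : Fin N → ℤ} {Z j : ℕ} (hu : ht u ≤ Z) (hv : ht v ≤ Z) :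
    ht (j • u + v) ≤ (j + 1) * Z := by
  apply ht_le
  intro i
  have h1 := le_ht' u i
  have h2 := le_ht' v i
  have h3 : (ht u : ℤ) ≤ Z := by exact_mod_cast hu
  have h4 : (ht v : ℤ) ≤ Z := by exact_mod_cast hv
  rw [Pi.add_apply, Pi.smul_apply, nsmul_eq_mul]
  calc |(j : ℤ) * u i + v i| ≤ |(j : ℤ) * u i| + |v i| := abs_add_le _ _
    _ = j * |u i| + |v i| := by rw [abs_mul, Nat.abs_cast]
    _ ≤ j * Z + Z := by
      apply add_le_add _ (h2.trans h4)
      exact mul_le_mul_of_nonneg_left (h1.trans h3) (by positivity)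
    _ = _ := by push_cast; ring

open Classical in
/-- The positive vectors (in the lexicographic order) of the lattice in a ball. -/
noncomputable def pos {N : ℕ} (L : AddSubgroup (Fin N → ℤ)) (Z : ℕ) : Finset (Fin N → ℤ) :=
  (bx N Z).filter fun v => v ∈ L ∧ 0 < toLex v

theorem mem_pos {N : ℕ} {L : AddSubgroup (Fin N → ℤ)} {Z : ℕ} {v : Fin N → ℤ} :
    v ∈ pos L Z ↔ ht v ≤ Z ∧ v ∈ L ∧ 0 < toLex v := by
  classical
  unfold pos
  rw [mem_filter, mem_bx]

theorem nn_pos {N : ℕ} (L : AddSubgroup (Fin N → ℤ)) (Z : ℕ) :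
    nn L Z = 2 * (pos L Z).card + 1 := by
  classical
  have h1 : (bx N Z).filter (fun v => v ∈ L) =
      insert 0 (pos L Z ∪ (pos L Z).image Neg.neg) := by
    ext v
    rw [mem_filter, mem_bx, mem_insert, mem_union, mem_pos, mem_image]
    constructor
    · rintro ⟨h1, h2⟩
      rcases lt_trichotomy (toLex v) 0 with h | h | h
      · refine Or.inr (Or.inr ⟨-v, ?_, neg_neg v⟩)
        rw [mem_pos, ht_neg]
        refine ⟨h1, neg_mem h2, ?_⟩
        rw [toLex_neg]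
        exact neg_pos.2 h
      · left
        exact h
      · exact Or.inr (Or.inl ⟨h1, h2, h⟩)
    · rintro (rfl | ⟨h1, h2, -⟩ | ⟨u, hu, rfl⟩)
      · refine ⟨?_, zero_mem _⟩
        apply ht_le
        intro i
        simp
      · exact ⟨h1, h2⟩
      · rw [mem_pos] at hu
        rw [ht_neg]
        exact ⟨hu.1, neg_mem hu.2.1⟩
  have h2 : (0 : Fin N → ℤ) ∉ pos L Z ∪ (pos L Z).image Neg.neg := by
    rw [mem_union, not_or]
    constructor
    · rw [mem_pos]
      rintro ⟨-, -, h⟩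
      exact lt_irrefl _ h
    · rw [mem_image]
      rintro ⟨u, hu, hu0⟩
      rw [neg_eq_zero] at hu0
      subst hu0
      rw [mem_pos] at hu
      exact lt_irrefl _ hu.2.2
  have h3 : Disjoint (pos L Z) ((pos L Z).image Neg.neg) := by
    rw [Finset.disjoint_left]
    intro v hv hv'
    rw [mem_image] at hv'
    obtain ⟨u, hu, rfl⟩ := hv'
    rw [mem_pos] at hu hv
    have h4 := hv.2.2
    rw [toLex_neg] at h4
    exact lt_asymm hu.2.2 (neg_pos.1 h4)
  unfold nn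
  rw [h1, card_insert_of_notMem h2, card_union_of_disjoint h3,
    card_image_of_injective _ neg_injective]
  ring

theorem pos_mul {N : ℕ} (L : AddSubgroup (Fin N → ℤ)) (Z m : ℕ) :
    m * (pos L Z).card ≤ (pos L (m * Z)).card := by
  classical
  rcases (pos L Z).eq_empty_or_nonempty with h0 | h0
  · rw [h0, card_empty, mul_zero]
    exact Nat.zero_le _
  obtain ⟨v1, hv1, hmax⟩ := (pos L Z).exists_max_image (fun v => toLex v) h0
  have hv1' := mem_pos.1 hv1
  have h1 : (range m ×ˢ pos L Z).card ≤ (pos L (m * Z)).card := by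
    apply card_le_card_of_injOn (fun t => t.1 • v1 + t.2)
    · rintro ⟨j, v⟩ ht
      rw [mem_coe, mem_product, mem_range, mem_pos] at ht
      obtain ⟨hj, hv⟩ := ht
      rw [mem_coe, mem_pos]
      refine ⟨(ht_comb hv1'.1 hv.1).trans (Nat.mul_le_mul_right Z hj), ?_, ?_⟩
      · exact add_mem (nsmul_mem hv1'.2.1 j) hv.2.1
      · show 0 < toLex (j • v1 + v)
        rw [toLex_add, toLex_smul]
        exact add_pos_of_nonneg_of_pos (nsmul_nonneg hv1'.2.2.le j) hv.2.2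
    · -- injective
      have key : ∀ j j' : ℕ, ∀ v v' : Fin N → ℤ, v ∈ pos L Z → v' ∈ pos L Z → j < j' →
          j • v1 + v ≠ j' • v1 + v' := by
        intro j j' v v' hv hv' hjj h
        obtain ⟨i, rfl⟩ : ∃ i, j' = j + (i + 1) := ⟨j' - j - 1, by omega⟩
        rw [add_smul, add_assoc] at h
        have h2 : v = (i + 1) • v1 + v' := add_left_cancel h
        have h3 := hmax v hv
        have h4 := (mem_pos.1 hv').2.2
        have h5 : toLex v = i • toLex v1 + (toLex v1 + toLex v') := by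
          rw [h2, succ_nsmul, add_assoc, toLex_add, toLex_add, toLex_smul]
          rfl
        have h6 : toLex v1 < toLex v1 + toLex v' := lt_add_of_pos_right _ h4
        have h7 : toLex v1 + toLex v' ≤ i • toLex v1 + (toLex v1 + toLex v') :=
          le_add_of_nonneg_left (nsmul_nonneg hv1'.2.2.le i)
        rw [← h5] at h7
        exact absurd h3 (not_le.2 (h6.trans_le h7))
      rintro ⟨j, v⟩ ht ⟨j', v'⟩ ht' h
      rw [mem_coe, mem_product] at ht ht'
      have h' : j • v1 + v = j' • v1 + v' := h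
      rcases lt_trichotomy j j' with hj | hj | hj
      · exact absurd h' (key j j' v v' ht.2 ht'.2 hj)
      · subst hj
        rw [add_left_cancel h']
      · exact absurd h'.symm (key j' j v' v ht'.2 ht.2 hj)
  rwa [card_product, card_range] at h1

theorem pos_mono {N : ℕ} (L : AddSubgroup (Fin N → ℤ)) {Z Z' : ℕ} (h : Z ≤ Z') :
    (pos L Z).card ≤ (pos L Z').card := by
  apply card_le_card
  intro v hv
  rw [mem_pos] at hv ⊢
  exact ⟨hv.1.trans h, hv.2⟩

theorem nn_mono {N : ℕ} (L : AddSubgroup (Fin N → ℤ)) {Z Z' : ℕ} (h : Z ≤ Z') :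
    nn L Z ≤ nn L Z' := by
  rw [nn_pos, nn_pos]
  have := pos_mono L h
  omega

theorem nn_one {N : ℕ} (L : AddSubgroup (Fin N → ℤ)) (Z : ℕ) : 1 ≤ nn L Z := by
  rw [nn_pos]
  omega

/-- If the ball of radius `Z` contains a nonzero vector, its number of lattice points is small
compared with the ball of radius `ρ`. -/
theorem nn_growth {N : ℕ} (L : AddSubgroup (Fin N → ℤ)) {Z ρ : ℕ} (hZ : Z ≤ ρ)
    (h : ∃ v ∈ L, v ≠ 0 ∧ ht v ≤ Z) : ρ * nn L Z ≤ 4 * Z * nn L ρ := by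
  obtain ⟨v, hv, hv0, hvZ⟩ := h
  have h1 : 1 ≤ (pos L Z).card := by
    rw [Nat.succ_le_iff, card_pos]
    rcases lt_trichotomy (toLex v) 0 with h | h | h
    · refine ⟨-v, mem_pos.2 ⟨by rwa [ht_neg], neg_mem hv, ?_⟩⟩
      rw [toLex_neg]
      exact neg_pos.2 h
    · exact absurd h hv0
    · exact ⟨v, mem_pos.2 ⟨hvZ, hv, h⟩⟩
  have hZ0 : 1 ≤ Z := by
    rcases Nat.eq_zero_or_pos Z with h | h
    · subst h
      exact absurd (ht_eq_zero (Nat.le_zero.1 hvZ)) hv0
    · exact h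
  set m := ρ / Z with hm
  have h2 : m * Z ≤ ρ := Nat.div_mul_le_self ρ Z
  have h3 : 1 ≤ m := (Nat.one_le_div_iff (by omega)).2 hZ
  have h4 : ρ ≤ 2 * m * Z := by
    have h5 : ρ < (m + 1) * Z := by
      rw [mul_comm]
      exact Nat.lt_mul_div_succ ρ (by omega)
    nlinarith
  have h5 : m * (pos L Z).card ≤ (pos L ρ).card := (pos_mul L Z m).trans (pos_mono L h2)
  rw [nn_pos, nn_pos]
  calc ρ * (2 * (pos L Z).card + 1) ≤ (2 * m * Z) * (4 * (pos L Z).card) := by
        apply Nat.mul_le_mul h4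
        omega
    _ = 4 * Z * (2 * (m * (pos L Z).card)) := by ring
    _ ≤ 4 * Z * (2 * (pos L ρ).card + 1) := by
        apply Nat.mul_le_mul_left
        omega

/-! ### Moebius sums -/

theorem tail_le {χ : ℕ → ℝ} (hχ : ∀ d, |χ d| ≤ 1) {a : ℕ} (ha : 2 ≤ a) {Y : ℕ} (hY : 1 ≤ Y) :
    |∑ d ∈ Icc 1 Y, (moebius d : ℝ) * χ d / (d : ℝ) ^ a - MX χ a| ≤ 1 / Y := by
  set g : ℕ → ℝ := fun d => (moebius d : ℝ) * χ d / (d : ℝ) ^ a with hg
  have h1 : Filter.Tendsto (fun n => ∑ d ∈ range n, g d) Filter.atTop (nhds (MX χ a)) :=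
    (summX hχ ha).hasSum.tendsto_sum_nat
  have h2 : Filter.Tendsto (fun n => |∑ d ∈ Icc 1 Y, g d - ∑ d ∈ range n, g d|) Filter.atTop
      (nhds |∑ d ∈ Icc 1 Y, g d - MX χ a|) := (tendsto_const_nhds.sub h1).abs
  refine le_of_tendsto h2 (Filter.eventually_atTop.2 ⟨Y + 1, fun n hn => ?_⟩)
  have h3 : ∑ d ∈ range n, g d = ∑ d ∈ Icc 1 Y, g d + ∑ d ∈ Ioc Y (n - 1), g d := by
    have h4 : range n = insert 0 (Icc 1 Y ∪ Ioc Y (n - 1)) := by
      ext d
      rw [mem_range, mem_insert, mem_union, mem_Icc, mem_Ioc]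
      omega
    rw [h4, sum_insert (by simp), sum_union (by
      rw [Finset.disjoint_left]
      intro d hd hd'
      rw [mem_Icc] at hd
      rw [mem_Ioc] at hd'
      omega)]
    simp [hg]
  rw [h3, sub_add_cancel_left, abs_neg]
  calc |∑ d ∈ Ioc Y (n - 1), g d| ≤ ∑ d ∈ Ioc Y (n - 1), |g d| := abs_sum_le_sum_abs _ _
    _ ≤ ∑ d ∈ Ioc Y (n - 1), ((d : ℝ) ^ 2)⁻¹ := by
        apply sum_le_sum
        intro d _
        rw [← one_div]
        exact termX_le hχ ha d
    _ ≤ (Y : ℝ)⁻¹ - ((n - 1 : ℕ) : ℝ)⁻¹ := sum_Ioc_inv_sq_le_sub (by omega) (by omega)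
    _ ≤ 1 / Y := by
        rw [one_div]
        have : (0 : ℝ) ≤ ((n - 1 : ℕ) : ℝ)⁻¹ := by positivity
        linarith

theorem mainL {a : ℕ} (ha : 2 ≤ a) {χ : ℕ → ℝ} (hχ : ∀ d, |χ d| ≤ 1) {E c0 : ℝ} (hE : 0 ≤ E)
    (hc0 : 0 ≤ c0) (A : ℕ → ℝ) {Y : ℕ} (hY : 1 ≤ Y)
    (hbound : ∀ d : ℕ, 1 ≤ d → |A d - χ d * (c0 * ((Y : ℝ) / d) ^ a)| ≤ E / d)
    (hcE : c0 * Y ^ (a - 1) ≤ E) :
    |∑ d ∈ Icc 1 Y, (moebius d : ℝ) * A d - c0 * MX χ a * (Y : ℝ) ^ a| ≤
      2 * E * (1 + Real.log Y) := by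
  have hY0 : (0 : ℝ) < Y := by exact_mod_cast hY
  have hY1 : (1 : ℝ) ≤ Y := by exact_mod_cast hY
  set S : ℝ := ∑ d ∈ Icc 1 Y, (moebius d : ℝ) * χ d / (d : ℝ) ^ a with hS
  have h1 : ∑ d ∈ Icc 1 Y, (moebius d : ℝ) * A d - c0 * MX χ a * (Y : ℝ) ^ a =
      ∑ d ∈ Icc 1 Y, (moebius d : ℝ) * (A d - χ d * (c0 * ((Y : ℝ) / d) ^ a)) +
        c0 * (Y : ℝ) ^ a * (S - MX χ a) := by
    have h2 : c0 * (Y : ℝ) ^ a * S =
        ∑ d ∈ Icc 1 Y, (moebius d : ℝ) * (χ d * (c0 * ((Y : ℝ) / d) ^ a)) := by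
      rw [hS, mul_sum]
      apply sum_congr rfl
      intro d _
      rw [div_pow]
      ring
    rw [mul_sub, h2]
    simp only [mul_sub, sum_sub_distrib]
    ring
  have h2 : |∑ d ∈ Icc 1 Y, (moebius d : ℝ) * (A d - χ d * (c0 * ((Y : ℝ) / d) ^ a))| ≤
      E * (1 + Real.log Y) := by
    calc _ ≤ ∑ d ∈ Icc 1 Y, |(moebius d : ℝ) * (A d - χ d * (c0 * ((Y : ℝ) / d) ^ a))| :=
          abs_sum_le_sum_abs _ _
      _ ≤ ∑ d ∈ Icc 1 Y, E * ((d : ℝ))⁻¹ := by
          apply sum_le_sum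
          intro d hd
          rw [abs_mul, ← div_eq_mul_inv]
          calc _ ≤ 1 * (E / d) := mul_le_mul (mu_abs d) (hbound d (mem_Icc.1 hd).1)
                (abs_nonneg _) zero_le_one
            _ = _ := one_mul _
      _ = E * ((harmonic Y : ℚ) : ℝ) := by
          rw [← mul_sum, harmonic_eq_sum_Icc]
          push_cast
          rfl
      _ ≤ E * (1 + Real.log Y) := by
          apply mul_le_mul_of_nonneg_left (harmonic_le_one_add_log Y) hE
  have h3 : |c0 * (Y : ℝ) ^ a * (S - MX χ a)| ≤ E := by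
    rw [abs_mul, abs_of_nonneg (by positivity)]
    calc c0 * (Y : ℝ) ^ a * |S - MX χ a| ≤ c0 * (Y : ℝ) ^ a * (1 / Y) :=
          mul_le_mul_of_nonneg_left (tail_le hχ ha hY) (by positivity)
      _ = c0 * (Y : ℝ) ^ (a - 1) := by
          have : (Y : ℝ) ^ a = (Y : ℝ) ^ (a - 1) * Y := by
            rw [← pow_succ]
            congr 1
            omega
          rw [this]
          field_simp
      _ ≤ E := hcE
  have h4 : 0 ≤ Real.log Y := Real.log_nonneg hY1
  rw [h1]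
  refine (abs_add_le _ _).trans ?_
  nlinarith

end Pool.Agent.T6.H57.BG
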